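import Pool.Agent.Q249.UlamDefs
import Pool.Agent.Q249.UlamProof

/-!
Neither every Fibonacci number nor every Lucas number is a sum of at most two Ulam numbers:
`F_20 = 6765` and `L_17 = 3571` are not.
-/

namespace Pool.Agent.Results.MP_7bafff_nt.ZeitlinFails

open Q249.Ulam

/-- The Ulam sequence exists, and for it neither the Lucas number `L_17 = 3571` nor the Fibonacci
number `F_20 = 6765` is a sum of at most two Ulam numbers.  So it is false that every Fibonacci
number and every Lucas number is such a sum, and each of the two halves fails separately. -/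
theorem result :
    (∃ u, IsUlamSeq u) ∧
    ∀ u, IsUlamSeq u →
      (lucas 17 = 3571 ∧ ¬ SumOfAtMostTwo u (lucas 17)) ∧
      (Nat.fib 20 = 6765 ∧ ¬ SumOfAtMostTwo u (Nat.fib 20)) ∧
      (¬ ∀ n : ℕ, SumOfAtMostTwo u (lucas n)) ∧
      (¬ ∀ n : ℕ, 1 ≤ n → SumOfAtMostTwo u (Nat.fib n)) := by
  refine ⟨exists_ulam, fun u hu => ?_⟩
  have hl : lucas 17 = 3571 := by decide
  have hf : Nat.fib 20 = 6765 := by decide
  have h1 : ¬ SumOfAtMostTwo u (lucas 17) := by rw [hl]; exact not_sum_3571 hu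
  have h2 : ¬ SumOfAtMostTwo u (Nat.fib 20) := by rw [hf]; exact not_sum_6765 hu
  exact ⟨⟨hl, h1⟩, ⟨hf, h2⟩, fun h => h1 (h 17), fun h => h2 (h 20 (by norm_num))⟩

end Pool.Agent.Results.MP_7bafff_nt.ZeitlinFails
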